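import Pool.Agent.U343.QR.Main

set_option autoImplicit false

/-!
# Sauer's question on quasiregular subgraphs

`F_k(C)` exists if and only if `k = 1` and `C > 2`.
-/

open Finset

namespace Pool.Agent.Results.MP_78fef3_co.QuasiregularAllK

/-- A subgraph `H` of `G` is `(k, C)`-quasiregular: it has at least one vertex, and every vertex `v`
of `H` has degree `k < d_H(v) < C k` inside `H`. -/
def Quasiregular {V : Type} {G : SimpleGraph V} (k : ℕ) (C : ℝ) (H : G.Subgraph) : Prop :=
  H.verts.Nonempty ∧ ∀ v ∈ H.verts,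
    (k : ℝ) < ((H.neighborSet v).ncard : ℝ) ∧ ((H.neighborSet v).ncard : ℝ) < C * k

/-- `F` has the property required of `F_k(C)`: every graph with `n ≥ 1` vertices and at least `F n`
edges contains a `(k, C)`-quasiregular subgraph. -/
def Forces (k : ℕ) (C F : ℝ) : Prop :=
  ∀ (V : Type) [Fintype V] [Nonempty V] (G : SimpleGraph V),
    F * (Fintype.card V : ℝ) ≤ (G.edgeSet.ncard : ℝ) → ∃ H : G.Subgraph, Quasiregular k C H

/-- a graph with at least as many edges as vertices has a cycle -/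
lemma not_acyclic {V : Type} [Fintype V] [Nonempty V] (G : SimpleGraph V)
    (h : Fintype.card V ≤ G.edgeSet.ncard) : ¬ G.IsAcyclic := by
  classical
  intro hac
  obtain ⟨T, hGT, hT⟩ := SimpleGraph.exists_maximal_isAcyclic_of_le_isAcyclic (G := ⊤) le_top hac
  have hT' : T.IsTree := by
    rw [← SimpleGraph.maximal_isAcyclic_iff_isTree]
    simpa using hT
  have h1 := hT'.card_edgeFinset
  have h2 : G.edgeSet ⊆ T.edgeSet := SimpleGraph.edgeSet_mono hGT
  have h3 := Set.ncard_le_ncard h2 (Set.toFinite _)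
  rw [← SimpleGraph.coe_edgeFinset T, Set.ncard_coe_finset] at h3
  omega

lemma forces_one {C : ℝ} (hC : 2 < C) : Forces 1 C 1 := by
  intro V _ _ G h
  have h' : Fintype.card V ≤ G.edgeSet.ncard := by
    rw [one_mul] at h
    exact_mod_cast h
  have h1 := not_acyclic G h'
  unfold SimpleGraph.IsAcyclic at h1
  push Not at h1
  obtain ⟨v, p, hp⟩ := h1
  refine ⟨p.toSubgraph, ⟨v, by simp⟩, ?_⟩
  intro w hw
  rw [hp.ncard_neighborSet_toSubgraph_eq_two (p.mem_verts_toSubgraph.mp hw)]
  constructor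
  · norm_num
  · push_cast
    linarith

/-- **Sauer's question has a negative answer**, and in the sharpest form: for an integer `k ≥ 1` and
a real `C`, a number `F_k(C)` exists exactly when `k = 1` and `C > 2`. -/
theorem result :
    (¬ ∃ C : ℝ, ∀ k : ℕ, 1 ≤ k → ∃ F : ℝ, Forces k C F) ∧
    (∀ (k : ℕ) (C : ℝ), 1 ≤ k → ((∃ F : ℝ, Forces k C F) ↔ (k = 1 ∧ 2 < C))) := by
  have key : ∀ (k : ℕ) (C : ℝ), 1 ≤ k → ((∃ F : ℝ, Forces k C F) ↔ (k = 1 ∧ 2 < C)) := by
    intro k C hk
    constructor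
    · rintro ⟨F, hF⟩
      obtain ⟨V, i1, i2, G, hcard, hno⟩ :=
        Pool.Agent.U343.QR.main (⌈C * k⌉₊) (⌈F⌉₊)
      have h1 : F * (Fintype.card V : ℝ) ≤ (G.edgeSet.ncard : ℝ) := by
        calc F * (Fintype.card V : ℝ) ≤ (⌈F⌉₊ : ℝ) * (Fintype.card V : ℝ) :=
              mul_le_mul_of_nonneg_right (Nat.le_ceil F) (Nat.cast_nonneg _)
          _ = ((⌈F⌉₊ * Fintype.card V : ℕ) : ℝ) := by push_cast; ring
          _ ≤ _ := by exact_mod_cast hcard
      obtain ⟨H, hne, hdeg⟩ := hF V G h1
      rcases Nat.lt_or_ge k 2 with hk2 | hk2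
      · have hk1 : k = 1 := by omega
        refine ⟨hk1, ?_⟩
        subst hk1
        obtain ⟨v, hv⟩ := hne
        obtain ⟨h2, h3⟩ := hdeg v hv
        have h4 : 1 < (H.neighborSet v).ncard := by exact_mod_cast h2
        have h5 : (2 : ℝ) ≤ ((H.neighborSet v).ncard : ℝ) := by exact_mod_cast h4
        push_cast at h3
        linarith
      · exfalso
        refine hno H hne ?_ ?_
        · intro v hv
          have h2 : k < (H.neighborSet v).ncard := by exact_mod_cast (hdeg v hv).1
          omega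
        · intro v hv
          have h3 : ((H.neighborSet v).ncard : ℝ) ≤ (⌈C * k⌉₊ : ℝ) :=
            (hdeg v hv).2.le.trans (Nat.le_ceil _)
          exact_mod_cast h3
    · rintro ⟨rfl, hC⟩
      exact ⟨1, forces_one hC⟩
  refine ⟨?_, key⟩
  rintro ⟨C, hC⟩
  have := (key 2 C (by norm_num)).mp (hC 2 (by norm_num))
  omega

end Pool.Agent.Results.MP_78fef3_co.QuasiregularAllK
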